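import Mathlib

set_option autoImplicit false

namespace Pool.Agent.Results.MP_ea4033_co.Dismantle

open Finset Submodule Classical

section
variable {V W : Type} [AddCommGroup V] [Module (ZMod 2) V] [AddCommGroup W] [Module (ZMod 2) W]

/-- circuits: minimal nonempty sets of columns with sum zero -/
def Circ (M : Finset V) (Z : Finset M) : Prop :=
  Minimal (fun Z : Finset M => Z.Nonempty ∧ ∑ e ∈ Z, e.1 = 0) Z

/-- cocircuits: minimal sets whose deletion lowers the span -/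
def Cocirc (M : Finset V) (C : Set V) : Prop :=
  Minimal (fun C : Set V => C ⊆ M ∧ span (ZMod 2) (M \ C : Set V) ≠ span (ZMod 2) M) C

/-- matroid homomorphisms `M → N` -/
def Hom (M : Finset V) (N : Finset W) (τ : M → W) : Prop :=
  (∀ e, τ e ∈ N) ∧ ∀ Z, Circ M Z → ∑ e ∈ Z, τ e = 0

/-- adjacency in `Col(M, N)` -/
def Adj (M : Finset V) (N : Finset W) (τ τ' : M → W) : Prop := Hom M N τ ∧ Hom M N τ' ∧ τ ≠ τ' ∧
  ∃ C c, Cocirc M C ∧ ∀ e : M, τ' e = if e.1 ∈ C then τ e + c else τ e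

/-- `Col(M, N)` is connected for every binary matroid `M` -/
def Trivial (N : Finset W) : Prop := ∀ (V : Type) [AddCommGroup V] [Module (ZMod 2) V]
  (M : Finset V) (τ τ' : M → W), Hom M N τ → Hom M N τ' → Relation.ReflTransGen (Adj M N) τ τ'

/-- `N'` is the image of a dismantling retraction of `N` -/
def Step (N N' : Finset W) : Prop := ∃ r : N → W, Adj N N Subtype.val r ∧
  (∀ e (h : r e ∈ N), r ⟨r e, h⟩ = r e) ∧ N' = univ.image r

lemma hom {M : Finset V} {N : Finset W} (L : V →ₗ[ZMod 2] W) (h : ∀ e ∈ M, L e ∈ N) :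
    Hom M N fun e => L e := ⟨fun e => h e e.2, fun Z hZ => by rw [← map_sum, hZ.1.2, map_zero]⟩

lemma lin {M : Finset V} {N : Finset W} {τ : M → W} (h : Hom M N τ) :
    ∃ L : V →ₗ[ZMod 2] W, ∀ e : M, L e = τ e := by
  have h1 : ∀ Z : Finset M, ∑ e ∈ Z, e.1 = 0 → ∑ e ∈ Z, τ e = 0 := fun Z => by
    induction Z using Finset.strongInduction with | H Z ih =>
    intro hZ
    rcases Z.eq_empty_or_nonempty with rfl | hn
    · simp
    obtain ⟨Y, hY, hm⟩ := exists_minimal_le_of_wellFoundedLT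
      (fun Z : Finset M => Z.Nonempty ∧ ∑ e ∈ Z, e.1 = 0) Z ⟨hn, hZ⟩
    rw [← sum_sdiff hY, h.2 Y hm, add_zero]
    exact ih _ (sdiff_ssubset hY hm.1.1) (by rwa [← sum_sdiff hY, hm.1.2, add_zero] at hZ)
  have h2 : ∀ {U : Type} [AddCommGroup U] [Module (ZMod 2) U] (g : M → U) (x : M → ZMod 2),
      Fintype.linearCombination (ZMod 2) g x = ∑ e with x e = 1, g e := fun g x => by
    rw [Fintype.linearCombination_apply, sum_filter]
    refine sum_congr rfl fun e _ => ?_
    rcases (by decide : ∀ a : ZMod 2, a = 0 ∨ a = 1) (x e) with h | h <;> simp [h]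
  let f := Fintype.linearCombination (ZMod 2) (Subtype.val : M → V)
  obtain ⟨L, hL⟩ := ((LinearMap.ker f).liftQ (Fintype.linearCombination (ZMod 2) τ) (fun x hx => by
    rw [LinearMap.mem_ker, h2] at hx ⊢; exact h1 _ hx) ∘ₗ
      f.quotKerEquivRange.symm.toLinearMap).exists_extend
  refine ⟨L, fun e => ?_⟩
  have := LinearMap.congr_fun hL ⟨f (Pi.single e 1), _, rfl⟩
  simp only [LinearMap.comp_apply, LinearEquiv.coe_coe, LinearMap.quotKerEquivRange_symm_apply_image,
    mkQ_apply, liftQ_apply, subtype_apply] at this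
  simpa [f] using this

lemma two (c : W) : c + c = 0 := by rw [← two_smul (ZMod 2), show (2 : ZMod 2) = 0 from rfl, zero_smul]

lemma step {N : Finset W} (hN : Trivial N) {c : W} (S : Set W) (h : ∀ a ∈ N, a ∈ S → a + c ∈ N)
    (h1 : ∃ a ∈ N, a ∈ S) (h2 : c ∉ span (ZMod 2) (N \ S : Set W)) :
    ∃ N', Step N N' ∧ N' ⊂ N ∧ N'.Nonempty ∧ Trivial N' := by
  obtain ⟨a, ha, haS⟩ := h1
  have hc : c ∈ span (ZMod 2) (N : Set W) := by
    have := sub_mem (subset_span (R := ZMod 2) (mem_coe.2 (h a ha haS))) (subset_span (mem_coe.2 ha))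
    rwa [add_sub_cancel_left] at this
  obtain ⟨C, hC, hm⟩ := (N.finite_toSet.finite_subsets.subset (t := {C : Set W | C ⊆ N ∧
    c ∉ span (ZMod 2) (N \ C : Set W)}) fun _ h => h.1).exists_le_minimal
    (a := (N : Set W) ∩ S) ⟨Set.inter_subset_left, by rwa [Set.diff_self_inter]⟩
  have h3 : ∀ e ∈ C, c + e ∈ span (ZMod 2) (N \ C : Set W) := fun e he => by
    have : c ∈ span (ZMod 2) (N \ (C \ {e}) : Set W) := by
      by_contra h'
      exact (hm.2 ⟨Set.diff_subset.trans hm.1.1, h'⟩ Set.diff_subset he).2 rfl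
    obtain ⟨t, z, hz, rfl⟩ := mem_span_insert.1 (span_mono (t := insert e (N \ C : Set W))
      (fun x hx => by simp only [Set.mem_diff, Set.mem_insert_iff, Set.mem_singleton_iff] at *
                      tauto) this)
    rcases (by decide : ∀ a : ZMod 2, a = 0 ∨ a = 1) t with rfl | rfl
    · exact absurd (by simpa using hz) hm.1.2
    · rwa [one_smul, add_right_comm, two, zero_add]
  obtain ⟨μ, hμ, hμ'⟩ := exists_dual_map_eq_bot_of_notMem hm.1.2 inferInstance
  have hμ1 : μ c = 1 := ((by decide : ∀ a : ZMod 2, a = 0 ∨ a = 1) _).resolve_left hμ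
  have h0 : ∀ x ∈ span (ZMod 2) (N \ C : Set W), μ x = 0 := fun x hx =>
    (Submodule.mem_bot _).1 (hμ' ▸ mem_map_of_mem hx)
  let R : W →ₗ[ZMod 2] W := LinearMap.id + μ.smulRight c
  have hR : ∀ e ∈ N, R e = if e ∈ C then e + c else e := fun e he => by
    split_ifs with h'
    · have := h0 _ (h3 e h')
      rw [map_add, hμ1, add_eq_zero_iff_neg_eq] at this
      simp [R, ← this, show (-1 : ZMod 2) = 1 from rfl]
    · simp [R, h0 e (subset_span ⟨he, h'⟩)]
  have hRR : ∀ x, R (R x) = R x := fun x => by simp [R, hμ1, add_smul, add_assoc, two]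
  have hRN : ∀ e ∈ N, R e ∈ N := fun e he => by
    rw [hR e he]; split_ifs with h'
    exacts [h e he (hC h').2, he]
  obtain ⟨e, he⟩ : C.Nonempty := Set.nonempty_iff_ne_empty.2 fun h => hm.1.2 (by simpa [h] using hc)
  have hne : R e ≠ e := by
    rw [hR e (hm.1.1 he), if_pos he, Ne, add_eq_left]
    rintro rfl
    simp at hμ
  refine ⟨_, ⟨fun e => R e, ⟨hom LinearMap.id fun _ => id, hom R hRN, fun h =>
    hne (congrFun h ⟨e, hm.1.1 he⟩).symm, C, c, ⟨⟨hm.1.1, fun h => hm.1.2 (h ▸ hc)⟩,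
    fun D hD hDC x hx => ?_⟩, fun e => hR e e.2⟩, fun e _ => hRR e, rfl⟩, ⟨fun x hx => ?_, fun h => ?_⟩,
    ⟨_, mem_image_of_mem _ (mem_univ ⟨a, ha⟩)⟩, fun V _ _ M τ τ' h h' => ?_⟩
  · by_contra hxD
    have h4 := span_mono (R := ZMod 2) (Set.diff_subset_diff_right (s := (N : Set W)) hDC)
    have h5 : c ∈ span (ZMod 2) (N \ D : Set W) := by
      simpa using sub_mem (h4 (h3 x hx)) (subset_span ⟨hm.1.1 hx, hxD⟩)
    refine hD.2 (le_antisymm (span_mono Set.diff_subset) (span_le.2 fun y hy => ?_))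
    by_cases hy' : y ∈ C
    · simpa using sub_mem (h4 (h3 y hy')) h5
    · exact h4 (subset_span ⟨hy, hy'⟩)
  · obtain ⟨y, -, rfl⟩ := mem_image.1 hx
    exact hRN _ y.2
  · obtain ⟨y, -, hy⟩ := mem_image.1 (h (hm.1.1 he))
    exact hne (by rw [← hy]; exact hRR _)
  have k1 : ∀ {σ : M → W}, Hom M (univ.image fun e : N => R e) σ → Hom M N σ ∧ R ∘ σ = σ :=
    fun h => ⟨⟨fun e => by obtain ⟨y, -, hy⟩ := mem_image.1 (h.1 e); exact hy ▸ hRN _ y.2, h.2⟩,
      funext fun e => by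
        obtain ⟨y, -, hy⟩ := mem_image.1 (h.1 e)
        rw [Function.comp, ← hy]; exact hRR _⟩
  have k2 : ∀ {σ : M → W}, Hom M N σ → Hom M (univ.image fun e : N => R e) (R ∘ σ) := fun h =>
    ⟨fun e => mem_image.2 ⟨⟨_, h.1 e⟩, mem_univ _, rfl⟩, fun Z hZ => by
      simp only [Function.comp]; rw [← map_sum, h.2 Z hZ, map_zero]⟩
  rw [← (k1 h).2, ← (k1 h').2]
  refine Relation.ReflTransGen.lift' (r := Adj M N) (R ∘ ·)
    (fun σ σ' ⟨a, b, _, C, c, h, h'⟩ => ?_) _ _ (hN V M τ τ' (k1 h).1 (k1 h').1)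
  by_cases e : R ∘ σ = R ∘ σ'
  · show Relation.ReflTransGen _ (R ∘ σ) (R ∘ σ')
    rw [e]
  refine .single ⟨k2 a, k2 b, e, C, R c, h, fun e => ?_⟩
  simp only [Function.comp, h' e]
  split_ifs <;> simp only [map_add]

lemma main {N : Finset W} (hN : Trivial N) (h : 1 < N.card) :
    ∃ N', Step N N' ∧ N' ⊂ N ∧ N'.Nonempty ∧ Trivial N' := by
  by_contra hno
  have : ∀ τ, Relation.ReflTransGen (Adj (N ×ˢ N) N) (fun e => LinearMap.fst (ZMod 2) W W e) τ →
      ∃ σ : W ≃ₗ[ZMod 2] W, (∀ a, σ a ∈ N ↔ a ∈ N) ∧ ∀ e, τ e = σ e.1.1 := fun τ hτ => by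
    induction hτ with
    | refl => exact ⟨.refl _ _, by simp, by simp⟩
    | @tail τ τ' _ h' ih =>
      obtain ⟨σ, hσ, e⟩ := ih
      obtain ⟨a, b, ne, C, c, -, h'⟩ := h'
      obtain ⟨c, rfl⟩ := σ.surjective c
      obtain ⟨L, hL⟩ := lin a
      obtain ⟨L', hL'⟩ := lin b
      obtain ⟨x, hx⟩ := Function.ne_iff.1 ne
      have hxC : x.1 ∈ C := by by_contra h; exact hx (by rw [h', if_neg h])
      have hc : c ≠ 0 := by rintro rfl; exact hx (by simp [h'])
      obtain ⟨φ, hφ⟩ := Module.Projective.exists_dual_eq_one (ZMod 2) (σ.map_ne_zero_iff.2 hc)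
      let l := φ ∘ₗ (L' - L)
      have hl : ∀ a ∈ N, ∀ b ∈ N, l (a, b) = if (a, b) ∈ C then 1 else 0 := fun a ha b hb => by
        have h1 := hL ⟨(a, b), mk_mem_product ha hb⟩
        have h2 := (hL' ⟨(a, b), mk_mem_product ha hb⟩).trans (h' _)
        simp only [l, LinearMap.comp_apply, LinearMap.sub_apply] at h1 h2 ⊢
        rw [h1, h2]
        split_ifs <;> simp [hφ]
      have hN' : ∀ a ∈ N, ∀ b ∈ N, (a, b) ∈ C → a + c ∈ N := fun a ha b' hb h => by
        have := b.1 ⟨(a, b'), mk_mem_product ha hb⟩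
        rwa [h', if_pos h, e, ← map_add, hσ] at this
      have hx := mem_product.1 x.2
      by_cases hA : ∀ a ∈ N, ∃ b ∈ N, (a, b) ∈ C
      · exact absurd (step hN Set.univ (fun a ha _ => let ⟨b, hb, h⟩ := hA a ha; hN' a ha b hb h)
          ⟨_, hx.1, trivial⟩ (by simpa using hc)) hno
      push Not at hA
      obtain ⟨a0, ha0, hA⟩ := hA
      let μ := l ∘ₗ (LinearMap.id.prod LinearMap.id)
      have hμ : ∀ a ∈ N, ∀ b ∈ N, μ a = if (a, b) ∈ C then 1 else 0 := fun a ha b hb => by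
        have : ((a, a) : W × W) = (a, b) + (a0, a) - (a0, b) := by simp
        rw [← hl a ha b hb, show μ a = l (a, a) from rfl, this, map_sub, map_add, hl a0 ha0 a ha,
          hl a0 ha0 b hb, if_neg (hA a ha), if_neg (hA b hb)]
        simp
      have hS : ∀ a ∈ N, μ a ≠ 0 → a + c ∈ N := fun a ha h =>
        hN' a ha a ha (by by_contra h'; exact h (by rw [hμ a ha a ha, if_neg h']))
      by_cases hμc : μ c = 0
      · let T : W →ₗ[ZMod 2] W := LinearMap.id + μ.smulRight c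
        have hT : Function.Involutive T := fun x => by simp [T, hμc, add_assoc, two]
        have hTN : ∀ a ∈ N, T a ∈ N := fun a ha => by
          rcases (by decide : ∀ a : ZMod 2, a = 0 ∨ a = 1) (μ a) with h | h
          · simpa [T, h]
          · simpa [T, h] using hS a ha (by simp [h])
        refine ⟨(LinearEquiv.ofInvolutive T hT).trans σ, fun a => (hσ _).trans
          ⟨fun h => hT a ▸ hTN _ h, hTN a⟩, fun y => ?_⟩
        have := hμ _ (mem_product.1 y.2).1 _ (mem_product.1 y.2).2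
        rw [h', e]
        show _ = σ (y.1.1 + μ y.1.1 • c)
        rw [this]
        split_ifs <;> simp
      · refine absurd (step hN {a | μ a ≠ 0} hS ⟨_, hx.1, ?_⟩ fun h => hμc ?_) hno
        · show μ _ ≠ 0
          rw [hμ _ hx.1 _ hx.2, if_pos hxC]; decide
        · exact (span_le.2 fun a ha => not_not.1 ha.2 : _ ≤ LinearMap.ker μ) h
  obtain ⟨σ, -, e⟩ := this _ (hN _ (N ×ˢ N) _ _
    (hom _ fun e he => (mem_product.1 he).1) (hom (LinearMap.snd _ W W) fun e he => (mem_product.1 he).2))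
  obtain ⟨a, ha, b, hb, ne⟩ := one_lt_card.1 h
  exact ne ((e ⟨(a, a), mk_mem_product ha ha⟩).trans (e ⟨(a, b), mk_mem_product ha hb⟩).symm)
end

/-- If `Recol(N)` is trivial then `N` dismantles to a one-element matroid. -/
theorem result (r : ℕ) (N : Finset (Fin r → ZMod 2)) (hn : N.Nonempty) (hN : Trivial N) :
    ∃ a, Relation.ReflTransGen Step N {a} := by
  induction N using Finset.strongInduction with | H N ih =>
  by_cases h : 1 < N.card
  · obtain ⟨N', a, b, c, d⟩ := main hN h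
    exact (ih N' b c d).imp fun _ => .head a
  · obtain ⟨a, rfl⟩ := card_eq_one.1 (le_antisymm (not_lt.1 h) hn.card_pos)
    exact ⟨a, .refl⟩

end Pool.Agent.Results.MP_ea4033_co.Dismantle
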